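import Pool.Agent.H56.ER2.Targets

/-! # (PRD) the last neighbours on two rungs -/

set_option autoImplicit false

open Pool.Agent.H48.ER Pool.Agent.H52.ER2 Pool.Agent.H66.ER2 Pool.Agent.H56.ER2

namespace Pool.Agent.H95.ER2

theorem pf_PRD : T_PRD := by
  intro V G a b n P v i j d e w u L M hN hP hij hv hL hLP hM hMP hvL hvM hnot
  by_cases h0 : d = 0 ∧ e = 0
  · exact Or.inr h0
  left
  have hd : Disjoint L M := (hP.dis i j hij).mono hLP hMP
  have hx : XE G L M (b i) (b j) := by
    intro x hx y hy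
    rw [hP.adj i j hij x (hLP hx) y (hMP hy)]
    constructor
    · rintro (⟨h1, h2⟩ | h)
      · exact absurd ⟨h1 ▸ hx, h2 ▸ hy⟩ hnot
      · exact h
    · exact fun h => Or.inr h
  have h1 := hL.append hM.rev hd hx
  have hvn : v ∉ L ∪ M := by
    rintro (h | h)
    · exact hv ⟨i, hLP h⟩
    · exact hv ⟨j, hMP h⟩
  have h2 := hN (d + e + 1) w u v (L ∪ M) h1 (by omega) hvn ((hvL w hL.left_mem).2 rfl)
    ((hvM u hM.left_mem).2 rfl) (by
      rintro r (hr | hr) ha
      · exact Or.inl ((hvL r hr).1 ha)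
      · exact Or.inr ((hvM r hr).1 ha))
  rcases Nat.even_or_odd (d + e) with h | h
  · exact absurd h2 (by rw [Nat.not_even_iff_odd]; exact h.add_one)
  · exact h

end Pool.Agent.H95.ER2
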