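import Pool.Agent.H56.ER2.Targets

/-! # (OGE) outgoing paths are even -/

set_option autoImplicit false

open Pool.Agent.H48.ER Pool.Agent.H52.ER2 Pool.Agent.H66.ER2 Pool.Agent.H56.ER2

namespace Pool.Agent.H95.ER2

theorem seg_path {V : Type} {G : SimpleGraph V} {m : ℕ} {g : ℕ → V} (h : PF G m g) {i j : ℕ}
    (hij : i ≤ j) (hj : j ≤ m) : IP G (j - i) (g i) (g j) (seg g i j) := by
  refine ⟨fun k => g (i + k), by simp, ?_, ?_, ?_, ?_⟩
  · show g (i + (j - i)) = g j
    congr 1
    omega
  · intro k l hk hl hkl
    have := h.inj (i + k) (i + l) (by omega) (by omega) hkl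
    omega
  · intro k l hk hl
    show G.Adj (g (i + k)) (g (i + l)) ↔ _
    rw [h.adj _ _ (by omega) (by omega)]
    omega
  · ext x
    constructor
    · rintro ⟨k, h1, h2, rfl⟩
      exact ⟨k - i, by omega, by
        show g (i + (k - i)) = g k
        congr 1
        omega⟩
    · rintro ⟨k, h1, rfl⟩
      exact ⟨i + k, by omega, by omega, rfl⟩

theorem pf_OGE (hFCT : T_FCT) (hQPI : T_QPI) (hSGW : T_SGW) (hSG0 : T_SG0) (hSGH : T_SGH)
    (hSGA : T_SGA) (hSGB : T_SGB) (hSGC : T_SGC) (hIDX : T_IDX) : T_OGE := by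
  intro V G v n z hS m a b R hO
  by_contra hm
  rw [Nat.not_even_iff_odd] at hm
  have hF := hFCT V G v n z hS
  obtain ⟨g, hQ⟩ := hQPI V G v n z hS hF m a b R hO hm
  have h3 := hQ.three
  have h4 := hF.four
  have hN0 : G.Adj v (g 0) := hQ.inA.1
  have hNm : G.Adj v (g m) := hQ.inB.1
  have hw0 : NW G n z (g 0) := Or.inr ⟨z 1, ⟨1, by omega, by omega, rfl⟩, hQ.inA.2.1⟩
  have hwm : NW G n z (g m) := Or.inr ⟨z (n - 1), ⟨n - 1, by omega, by omega, rfl⟩, hQ.inB.2.1⟩
  have hty : ∀ i, 0 < i → i < m → NW G n z (g i) → ¬ G.Adj v (g i) :=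
    fun i h1 h2 h5 h6 => hQ.ty i h1 h2 h6 h5
  refine absurd (hIDX m (fun i => G.Adj v (g i)) (fun i => NW G n z (g i)) (by omega) hw0 hwm hN0
    hNm hty ?_ ?_) (by rw [Nat.not_even_iff_odd]; exact hm)
  · intro i j hij hj hi hj' hbt
    refine hS.cls.noh (j - i) (g i) (g j) v (seg g i j) (seg_path hQ.pf (by omega) hj) (by omega)
      ?_ hi hj' ?_
    · rintro ⟨k, h1, h2, h5⟩
      exact hQ.nv k (by omega) h5
    · rintro w ⟨k, h1, h2, rfl⟩ hk
      by_cases e1 : k = i
      · exact Or.inl (by rw [e1])
      by_cases e2 : k = j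
      · exact Or.inr (by rw [e2])
      exact absurd hk (hbt k (by omega) (by omega))
  · intro i k c e hik hkm hwi hwk hbt hic hce hek hNc hNe hlo hhi
    by_cases hA : i = 0 ∧ k = m
    · obtain ⟨rfl, rfl⟩ := hA
      have hc : c = 0 := by
        by_contra h
        exact hlo 0 le_rfl (by omega) hN0
      have he : e = k := by
        by_contra h
        exact hhi k (by omega) le_rfl hNm
      rw [hc, he, Nat.sub_zero]
      exact hSG0 V G v n z k g hS hF hQ hbt
    have hni : 0 < i → ¬ G.Adj v (g i) := fun h => hty i h (by omega) hwi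
    have hnk : k < m → ¬ G.Adj v (g k) := fun h => hty k (by omega) h hwk
    by_cases hB : k = i + 1
    · by_cases hce' : c = e
      · rw [hce', Nat.sub_self]
        exact Even.zero
      exfalso
      have hc : c = i := by omega
      have he : e = k := by omega
      rw [hc] at hNc
      rw [he] at hNe
      by_cases h5 : 0 < i
      · exact hni h5 hNc
      by_cases h6 : k < m
      · exact hnk h6 hNe
      exact hA ⟨by omega, by omega⟩
    obtain ⟨l, s, t, T, hT⟩ := hSGW V G v n z m g i k hS hQ.pf (by omega) hkm hwi hwk hbt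
    by_cases hce' : c = e
    · rw [hce', Nat.sub_self]
      exact Even.zero
    by_cases hce2 : c + 2 ≤ e
    · exact hSGH V G v n z m g i k l s t T c e hS hF hQ hT hkm hic hce2 hek hNc hNe hlo hhi
    have he : e = c + 1 := by omega
    subst he
    exfalso
    by_cases h5 : 0 < i
    · by_cases h6 : k < m
      · have h7 : i < c := by
          rcases Nat.lt_or_ge i c with h | h
          · exact h
          · exact absurd (by rw [show i = c by omega]; exact hNc) (hni h5)
        have h8 : c + 1 < k := by
          rcases Nat.lt_or_ge (c + 1) k with h | h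
          · exact h
          · exact absurd (by rw [show k = c + 1 by omega]; exact hNe) (hnk h6)
        exact hSGA V G v n z m g i k l s t T c hS hF hQ hT h5 h6 h7 h8 hNc hNe hlo hhi
      · have h7 : k = m := by omega
        subst h7
        have h8 : c = k - 1 := by
          by_contra h
          exact hhi k (by omega) le_rfl hNm
        rw [h8] at hNc hlo
        exact hSGC V G v n z k g i l s t T hS hF hQ hT h5 hNc hlo
    · have h6 : i = 0 := by omega
      subst h6
      have h7 : c = 0 := by
        by_contra h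
        exact hlo 0 le_rfl (by omega) hN0
      rw [h7] at hNe hhi
      exact hSGB V G v n z m g k l s t T hS hF hQ hT (by omega) hNe hhi

end Pool.Agent.H95.ER2
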